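import Mathlib
import Pool.Agent.Q91.ExpDimD
import Pool.Agent.Q91.MinkSeries

/-!
# The Hausdorff dimension of the exponential series evaluated at typical compact sets

We disprove that `exp(K)` has Hausdorff dimension zero for the typical compact set `K ⊆ [0,1]`:
as soon as `K` contains two different nonzero points, the dimension of `exp(K)` is at least
`1 / 2000`.
-/

namespace Pool.Agent.Results.MP_098a03_an.ExpTypical

open Filter Topology Set TopologicalSpace Q91.MinkSeries Q91.ExpDim

open scoped Pointwise ENNReal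

/-- The coefficients `1 / i!` of the exponential series. -/
noncomputable def expCoeff (i : ℕ) : ℝ := 1 / (i.factorial : ℝ)

lemma summable_expCoeff : Summable fun i => |expCoeff i| := by
  have h := Real.summable_pow_div_factorial 1
  apply h.congr
  intro i
  unfold expCoeff
  rw [one_pow, abs_of_pos (by positivity)]

lemma dim_value {K : NonemptyCompacts (Icc (0 : ℝ) 1)} (hK : K ∈ TwoPoints) {L : Set ℝ}
    (hL : IsValue expCoeff (toSet K) L) : ENNReal.ofReal (1 / 2000) ≤ dimH L := by
  obtain ⟨x, hx, y, hy, hy0, hyx⟩ := hK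
  have hx0 : 0 < x := by linarith
  have hx1 : x ≤ 1 := (toSet_subset K hx).2
  set l : ℝ := Real.log (x / y) with hl
  have hl0 : 0 < l := Real.log_pos (by rw [lt_div_iff₀ hy0]; linarith)
  have hexp : Real.exp (-l) = y / x := by
    rw [hl, Real.exp_neg, Real.exp_log (by positivity), inv_div]
  obtain ⟨s₁, hC⟩ := exists_cond hx0 hx1 hl0
  refine (le_dimH_range_pt hx0 hx1 hl0 hC).trans (dimH_mono ?_)
  rw [(isValue_iff (toSet_compact K) (toSet_nonempty K) (toSet_subset K) summable_expCoeff L).mp hL]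
  rintro _ ⟨d, rfl⟩
  refine ⟨fun i => x ^ (i - κ x l s₁ d i) * y ^ κ x l s₁ d i, ?_, ?_⟩
  · intro i
    have h1 := κ_le hx0 hx1 hl0 hC d i
    have h2 : toSet K ^ i = toSet K ^ (i - κ x l s₁ d i) * toSet K ^ κ x l s₁ d i := by
      rw [← pow_add]
      congr 1
      omega
    simp only
    rw [h2]
    exact Set.mul_mem_mul (Set.pow_mem_pow hx) (Set.pow_mem_pow hy)
  · unfold pt
    apply tsum_congr
    intro i
    have h1 := κ_le hx0 hx1 hl0 hC d i
    have h2 : x ^ i = x ^ (i - κ x l s₁ d i) * x ^ κ x l s₁ d i := by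
      rw [← pow_add]
      congr 1
      omega
    unfold a expCoeff
    rw [hexp, h2, div_pow]
    field_simp

/-- For the typical compact subset `K` of `[0,1]` the set `exp(K)` has Hausdorff dimension at
least `1 / 2000`. In particular the set of those `K` with `0 < dim exp(K)` is not meager. -/
theorem result :
    (∀ K : NonemptyCompacts (Icc (0 : ℝ) 1), ∃! L : Set ℝ, IsValue expCoeff (toSet K) L) ∧
    (∀ K : NonemptyCompacts (Icc (0 : ℝ) 1), (∃ x ∈ toSet K, ∃ y ∈ toSet K, 0 < y ∧ y < x) →
      ∀ L : Set ℝ, IsValue expCoeff (toSet K) L → ENNReal.ofReal (1 / 2000) ≤ dimH L) ∧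
    IsMeagre {K : NonemptyCompacts (Icc (0 : ℝ) 1) |
      ∃ L : Set ℝ, IsValue expCoeff (toSet K) L ∧ dimH L < ENNReal.ofReal (1 / 2000)} ∧
    ¬ IsMeagre {K : NonemptyCompacts (Icc (0 : ℝ) 1) |
      ∃ L : Set ℝ, IsValue expCoeff (toSet K) L ∧ 0 < dimH L} := by
  refine ⟨fun K => existsUnique_value K summable_expCoeff, fun K hK L hL => dim_value hK hL,
    ?_, ?_⟩
  · have h1 : IsMeagre (TwoPointsᶜ : Set (NonemptyCompacts (Icc (0 : ℝ) 1))) := by
      unfold IsMeagre
      rw [compl_compl]
      exact twoPoints_mem_residual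
    apply h1.mono
    rintro K ⟨L, hL, hlt⟩ hK
    exact absurd (dim_value hK hL) (not_le.mpr hlt)
  · intro hm
    have h1 : ({K : NonemptyCompacts (Icc (0 : ℝ) 1) |
      ∃ L : Set ℝ, IsValue expCoeff (toSet K) L ∧ 0 < dimH L}ᶜ ∩ TwoPoints)
        ∈ residual (NonemptyCompacts (Icc (0 : ℝ) 1)) :=
      inter_mem hm twoPoints_mem_residual
    obtain ⟨K, hK1, hK2⟩ := (dense_of_mem_residual h1).nonempty
    apply hK1
    obtain ⟨L, hL, -⟩ := existsUnique_value K summable_expCoeff
    refine ⟨L, hL, lt_of_lt_of_le ?_ (dim_value hK2 hL)⟩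
    rw [ENNReal.ofReal_pos]
    norm_num

end Pool.Agent.Results.MP_098a03_an.ExpTypical
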